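import Pool.Agent.helper65.T1.SpecN

set_option autoImplicit false

/-!
Project T1 (MP_07c750_an), block N, row t1:BDX (dyadic sum over the blocks).
-/

open MeasureTheory

namespace Pool.Agent.T1

noncomputable section

/-- the dyadic index -/
theorem BDX_idx (N : ℕ) (T0 t : ℝ) (hT0 : 1 ≤ T0) (h1 : T0 ≤ t) (h2 : t ≤ 4 * N) :
    ∃ i ∈ Finset.range (Nat.log 2 (4 * N) + 1), (2 : ℝ) ^ i * T0 ≤ t ∧ t ≤ 2 * ((2 : ℝ) ^ i * T0) := by
  have hT : 0 < T0 := by linarith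
  have hy : 1 ≤ t / T0 := by rw [le_div_iff₀ hT]; linarith
  have hy0 : 0 ≤ t / T0 := by linarith
  obtain ⟨n, hn⟩ : ∃ n, n = ⌊t / T0⌋₊ := ⟨_, rfl⟩
  have hn1 : 1 ≤ n := by rw [hn]; exact Nat.one_le_floor_iff _ |>.2 hy
  have hn2 : (n : ℝ) ≤ t / T0 := by rw [hn]; exact Nat.floor_le hy0
  have hn3 : t / T0 < n + 1 := by rw [hn]; exact Nat.lt_floor_add_one _
  have hn4 : n ≤ 4 * N := by
    have h3 : (n : ℝ) ≤ ((4 * N : ℕ) : ℝ) := by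
      push_cast
      refine hn2.trans (le_trans ?_ h2)
      rw [div_le_iff₀ hT]
      nlinarith
    exact_mod_cast h3
  refine ⟨Nat.log 2 n, Finset.mem_range.2 (Nat.lt_succ_of_le (Nat.log_mono_right hn4)), ?_, ?_⟩
  · have h3 : 2 ^ Nat.log 2 n ≤ n := Nat.pow_log_le_self 2 (by omega)
    have h4 : ((2 : ℝ) ^ Nat.log 2 n) ≤ n := by exact_mod_cast h3
    have h5 : (2 : ℝ) ^ Nat.log 2 n ≤ t / T0 := h4.trans hn2
    rwa [le_div_iff₀ hT] at h5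
  · have h3 : n < 2 ^ (Nat.log 2 n + 1) := Nat.lt_pow_succ_log_self (by norm_num) n
    have h4 : n + 1 ≤ 2 ^ (Nat.log 2 n + 1) := h3
    have h5 : ((n : ℝ) + 1) ≤ (2 : ℝ) ^ (Nat.log 2 n + 1) := by exact_mod_cast h4
    have h6 : t / T0 ≤ (2 : ℝ) ^ (Nat.log 2 n + 1) := (hn3.le).trans h5
    rw [div_le_iff₀ hT, pow_succ] at h6
    linarith

theorem BDX_log (N : ℕ) (hN : 1 ≤ N) : ((Nat.log 2 (4 * N) + 1 : ℕ) : ℝ) ≤ 4 * (1 + Real.log N) := by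
  have hN0 : (0 : ℝ) < N := by exact_mod_cast hN
  have h1 : 2 ^ Nat.log 2 (4 * N) ≤ 4 * N := Nat.pow_log_le_self 2 (by omega)
  have h2 : ((2 : ℝ) ^ Nat.log 2 (4 * N)) ≤ 4 * N := by exact_mod_cast h1
  have h3 := Real.log_le_log (by positivity) h2
  rw [Real.log_pow, Real.log_mul (by norm_num) hN0.ne'] at h3
  have h4 : Real.log 4 = 2 * Real.log 2 := by
    rw [show (4 : ℝ) = 2 ^ 2 by norm_num, Real.log_pow]
    norm_num
  rw [h4] at h3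
  have h5 : 0.6931471803 < Real.log 2 := Real.log_two_gt_d9
  have h6 : 0 ≤ Real.log N := Real.log_nonneg (by exact_mod_cast hN)
  push_cast
  nlinarith

theorem BDX_aux (C : ℝ) (hC : 1 ≤ C) (hNLP : NLP_stmt)
    (hB : ∀ (N : ℕ) (U : Finset ℤ) (θ T : ℝ) (J : Finset ℤ) (tj xj : ℤ → ℝ), 1 ≤ N → (∀ k ∈ U, |k| ≤ 2 * N) → 0 < θ → θ ≤ 1 → 1 ≤ θ * T → T ≤ 4 * N →
      (∀ j ∈ J, (j : ℝ) ≤ N * xj j ∧ N * xj j ≤ j + 1 ∧ |xj j| ≤ 1 / 8 ∧ T ≤ tj j ∧ tj j ≤ 2 * T ∧ θ * U.card ≤ ‖NE N U (tj j) (xj j)‖) →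
      (J.card : ℝ) * (U.card : ℝ) ^ 3 * θ ^ 7 * Real.sqrt T ≤ C * N ^ 4 * (1 + Real.log N))
    (N : ℕ) (U : Finset ℤ) (θ T0 : ℝ) (hN : 1 ≤ N) (hU : ∀ k ∈ U, |k| ≤ 2 * N) (hθ : 0 < θ) (hθ1 : θ ≤ 1) (hT0 : 1 ≤ θ * T0) (S : Finset ℤ)
    (hS : ∀ j ∈ S, ∃ X t : ℝ, (j : ℝ) ≤ N * X ∧ N * X ≤ j + 1 ∧ |X| ≤ 1 / 8 ∧ T0 ≤ |t| ∧ |t| ≤ 4 * N ∧ θ * U.card ≤ ‖NE N U t X‖) :
    (S.card : ℝ) * (U.card : ℝ) ^ 3 * θ ^ 7 * Real.sqrt T0 ≤ 4 * C * N ^ 4 * (1 + Real.log N) ^ 2 := by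
  classical
  have hT1 : 1 ≤ T0 := by
    by_contra h
    push Not at h
    rcases le_or_gt T0 0 with h0 | h0
    · nlinarith
    · nlinarith
  have hlog : 0 ≤ Real.log N := Real.log_nonneg (by exact_mod_cast hN)
  -- the choice
  have hch : ∀ j : ℤ, ∃ (X t : ℝ) (i : ℕ), j ∈ S → ((j : ℝ) ≤ N * X ∧ N * X ≤ j + 1 ∧ |X| ≤ 1 / 8 ∧ |t| ≤ 4 * N ∧ θ * U.card ≤ ‖NE N U t X‖ ∧
      i ∈ Finset.range (Nat.log 2 (4 * N) + 1) ∧ (2 : ℝ) ^ i * T0 ≤ |t| ∧ |t| ≤ 2 * ((2 : ℝ) ^ i * T0)) := by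
    intro j
    by_cases hj : j ∈ S
    · obtain ⟨X, t, h1, h2, h3, h4, h5, h6⟩ := hS j hj
      obtain ⟨i, hi, hi1, hi2⟩ := BDX_idx N T0 |t| hT1 h4 h5
      exact ⟨X, t, i, fun _ => ⟨h1, h2, h3, h5, h6, hi, hi1, hi2⟩⟩
    · exact ⟨0, 0, 0, fun h => absurd h hj⟩
  choose X t i hi using hch
  have hmaps : ∀ j ∈ S, i j ∈ Finset.range (Nat.log 2 (4 * N) + 1) := fun j hj => (hi j hj).2.2.2.2.2.1
  have hcard := Finset.card_eq_sum_card_fiberwise (f := i) (s := S) (t := Finset.range (Nat.log 2 (4 * N) + 1)) hmaps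
  have hone : ∀ n ∈ Finset.range (Nat.log 2 (4 * N) + 1), (((S.filter fun j => i j = n).card : ℕ) : ℝ) * (U.card : ℝ) ^ 3 * θ ^ 7 * Real.sqrt T0 ≤ C * N ^ 4 * (1 + Real.log N) := by
    intro n _
    rcases (S.filter fun j => i j = n).eq_empty_or_nonempty with he | hne
    · rw [he, Finset.card_empty, Nat.cast_zero, zero_mul, zero_mul, zero_mul]
      have : 0 ≤ C := by linarith
      positivity
    · have hTn : T0 ≤ (2 : ℝ) ^ n * T0 := by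
        have h1 : (1 : ℝ) ≤ 2 ^ n := one_le_pow₀ (by norm_num)
        nlinarith
      have hT4 : (2 : ℝ) ^ n * T0 ≤ 4 * N := by
        obtain ⟨j, hj⟩ := hne
        obtain ⟨hjS, hjn⟩ := Finset.mem_filter.1 hj
        have h1 := hi j hjS
        rw [hjn] at h1
        exact h1.2.2.2.2.2.2.1.trans h1.2.2.2.1
      have h := hB N U θ ((2 : ℝ) ^ n * T0) (S.filter fun j => i j = n) (fun j => |t j|) X hN hU hθ hθ1 (hT0.trans (mul_le_mul_of_nonneg_left hTn hθ.le)) hT4 (by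
        intro j hj
        obtain ⟨hjS, hjn⟩ := Finset.mem_filter.1 hj
        have h1 := hi j hjS
        rw [hjn] at h1
        obtain ⟨a1, a2, a3, a4, a5, -, a7, a8⟩ := h1
        refine ⟨a1, a2, a3, a7, a8, ?_⟩
        have hX4 : |X j| ≤ 1 / 4 := a3.trans (by norm_num)
        rcases abs_choice (t j) with hc | hc
        · show θ * U.card ≤ ‖NE N U |t j| (X j)‖
          rw [hc]
          exact a5
        · show θ * U.card ≤ ‖NE N U |t j| (X j)‖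
          rw [hc, (hNLP N U (X j) (X j) hN hU hX4 hX4).2.2]
          exact a5)
      refine le_trans ?_ h
      apply mul_le_mul_of_nonneg_left (Real.sqrt_le_sqrt hTn)
      positivity
  have hsum : (S.card : ℝ) * (U.card : ℝ) ^ 3 * θ ^ 7 * Real.sqrt T0 ≤ ((Nat.log 2 (4 * N) + 1 : ℕ) : ℝ) * (C * N ^ 4 * (1 + Real.log N)) := by
    have h1 : (S.card : ℝ) * (U.card : ℝ) ^ 3 * θ ^ 7 * Real.sqrt T0 =
        ∑ n ∈ Finset.range (Nat.log 2 (4 * N) + 1), (((S.filter fun j => i j = n).card : ℕ) : ℝ) * (U.card : ℝ) ^ 3 * θ ^ 7 * Real.sqrt T0 := by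
      rw [← Finset.sum_mul, ← Finset.sum_mul, ← Finset.sum_mul, hcard]
      push_cast
      rfl
    rw [h1]
    refine (Finset.sum_le_card_nsmul _ _ _ hone).trans ?_
    rw [Finset.card_range, nsmul_eq_mul]
  refine hsum.trans ?_
  have hpos : 0 ≤ C * N ^ 4 * (1 + Real.log N) := by
    have : 0 ≤ C := by linarith
    positivity
  calc ((Nat.log 2 (4 * N) + 1 : ℕ) : ℝ) * (C * N ^ 4 * (1 + Real.log N)) ≤ (4 * (1 + Real.log N)) * (C * N ^ 4 * (1 + Real.log N)) :=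
        mul_le_mul_of_nonneg_right (BDX_log N hN) hpos
    _ = 4 * C * N ^ 4 * (1 + Real.log N) ^ 2 := by ring

theorem BDX_proof (hNBT : NBT_stmt) (hNLP : NLP_stmt) : BDX_stmt := by
  classical
  obtain ⟨C, hC, hB⟩ := hNBT
  refine ⟨4 * C, by linarith, ?_⟩
  intro N U θ T0 hN hU hθ hθ1 hT0
  exact BDX_aux C hC hNLP hB N U θ T0 hN hU hθ hθ1 hT0 _ (fun j hj => by
    rw [Finset.mem_filter] at hj
    exact hj.2)

end

end Pool.Agent.T1
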